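import Mathlib
import Pool.Agent.H206R3.Warm

namespace Pool.Agent.Results.MP_64e474_co.FoldedCubeTimesK4

open Topology Pool.Agent.H206R3.Clebsch Pool.Agent.H206R3.Warm

/-! ### Warmth -/

/-- The infinite rooted tree `T^d`: vertices are finite words over `Fin d`, the root is the empty
word, and the children of `l` are the words `l ++ [i]`.  The distance of a vertex from the root is
its length. -/
def treeGraph (d : ℕ) : SimpleGraph (List (Fin d)) where
  Adj l l' := (∃ i, l' = l ++ [i]) ∨ (∃ i, l = l' ++ [i])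
  symm := ⟨fun _ _ h => h.symm⟩
  loopless := ⟨fun l h => by
    rcases h with ⟨i, h⟩ | ⟨i, h⟩ <;>
    · have := congrArg List.length h
      simp at this⟩

/-- A homomorphism `φ : T^d → G` is cold if there is a vertex `a` such that for every `k ≥ 1` no
homomorphism `ψ : T^d → G` agrees with `φ` on all vertices at distance `k` from the root and
has value `a` at the root. -/
def IsCold {V : Type} {G : SimpleGraph V} {d : ℕ} (φ : treeGraph d →g G) : Prop :=
  ∃ a : V, ∀ k : ℕ, 1 ≤ k → ¬ ∃ ψ : treeGraph d →g G,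
    (∀ l : List (Fin d), l.length = k → ψ l = φ l) ∧ ψ [] = a

/-- `G` is `d`-warm (`d ≥ 2`) if no homomorphism `T^(d-2) → G` is cold. -/
def IsWarm {V : Type} (G : SimpleGraph V) (d : ℕ) : Prop :=
  2 ≤ d ∧ ∀ φ : treeGraph (d - 2) →g G, ¬ IsCold φ

/-- The warmth of `G`: the largest `d` such that `G` is `d`-warm. -/
noncomputable def warmth {V : Type} (G : SimpleGraph V) : EReal :=
  sSup {c : EReal | ∃ d : ℕ, IsWarm G d ∧ c = d}

/-! ### The neighborhood complex and connectivity -/

/-- The faces of the neighborhood complex: the nonempty vertex sets with a common neighbour. -/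
def nbhdFaces {V : Type} (G : SimpleGraph V) : Set (Finset V) :=
  {s | s.Nonempty ∧ ∃ y, ∀ v ∈ s, G.Adj y v}

/-- The geometric realization of a simplicial complex on a finite vertex set given by its faces:
vectors of barycentric coordinates whose support lies in a face, with the subspace topology. -/
def realization {V : Type} [Fintype V] (K : Set (Finset V)) : Set (V → ℝ) :=
  {x | (∀ v, 0 ≤ x v) ∧ ∑ v, x v = 1 ∧ ∃ s ∈ K, ∀ v, x v ≠ 0 → v ∈ s}

/-- `X` is `k`-connected (`k ≥ -1`): `X` is nonempty and `π_i(X, x)` is trivial for all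
`0 ≤ i ≤ k` and all base points `x`. -/
def IsKConnected (X : Type) [TopologicalSpace X] (k : ℤ) : Prop :=
  Nonempty X ∧ ∀ i : ℕ, (i : ℤ) ≤ k → ∀ x : X, Subsingleton (π_ i X x)

/-- The connectivity `conn[X]`: the largest `k ≥ -1` such that `X` is `k`-connected (`⊤` if it is
`k`-connected for every `k`, and `⊥` if `X` is empty). -/
noncomputable def conn (X : Type) [TopologicalSpace X] : EReal :=
  sSup {c : EReal | ∃ k : ℤ, -1 ≤ k ∧ IsKConnected X k ∧ c = ((k : ℝ) : EReal)}

/-! ### The graph -/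

/-- The vertices of the example. -/
abbrev VV : Type := Fin 16 × Fin 4

theorem R_refl : ∀ x : Fin 16, R x x := by decide

/-- The graph: the product of the reflexive folded `5`-cube and `K₄`. -/
def H : SimpleGraph VV where
  Adj a b := Radj a b
  symm := ⟨fun _ _ h => ⟨R_symm _ _ h.1, h.2.symm⟩⟩
  loopless := ⟨fun _ h => h.2 rfl⟩

theorem four_warm : IsWarm H 4 := by
  refine ⟨by norm_num, ?_⟩
  intro φ hφ
  obtain ⟨a, ha⟩ := hφ
  have hH : IsH (d := 2) Radj (fun l => φ l) := fun (l : List (Fin 2)) i =>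
    φ.map_rel (show (treeGraph 2).Adj l (l ++ [i]) from Or.inl ⟨i, rfl⟩)
  obtain ⟨f, hf0, hf, hfa⟩ := extend4 _ hH a
  refine ha 4 (by norm_num) ⟨⟨f, ?_⟩, ?_, hf0⟩
  · intro l l' h
    rcases h with ⟨i, rfl⟩ | ⟨i, rfl⟩
    · exact hf l i
    · exact (show H.Adj _ _ from hf l' i).symm
  · intro l hl
    exact hfa l (by omega)

/-! ### The double cover -/

/-- The realization of the neighborhood complex of the example. -/
abbrev XX : Set (VV → ℝ) := realization (nbhdFaces H)

theorem mem_XX (x : VV → ℝ) : x ∈ XX ↔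
    (∀ v, 0 ≤ x v) ∧ ∑ v, x v = 1 ∧ ∃ y : VV, ∀ v, x v ≠ 0 → Radj y v := by
  constructor
  · rintro ⟨h1, h2, s, ⟨-, y, hy⟩, hs⟩
    exact ⟨h1, h2, y, fun v hv => hy v (hs v hv)⟩
  · rintro ⟨h1, h2, y, hy⟩
    refine ⟨h1, h2, Finset.univ.filter (fun v => x v ≠ 0), ⟨?_, y, ?_⟩, ?_⟩
    · by_contra hne
      rw [Finset.not_nonempty_iff_eq_empty, Finset.filter_eq_empty_iff] at hne
      have : ∑ v, x v = 0 := Finset.sum_eq_zero fun v hv => by
        have := hne hv
        simpa using this
      rw [this] at h2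
      norm_num at h2
    · intro v hv
      exact hy v (Finset.mem_filter.1 hv).2
    · intro v hv
      exact Finset.mem_filter.2 ⟨Finset.mem_univ v, hv⟩

/-- The double cover. -/
def EE : Set (VV × ZMod 2 → ℝ) :=
  {x | (∀ p, 0 ≤ x p) ∧ ∑ p, x p = 1 ∧ (∃ y : VV, ∀ p : VV × ZMod 2, ¬ Radj y p.1 → x p = 0) ∧
    ∀ p q : VV × ZMod 2, q.2 ≠ p.2 + kap p.1.1 q.1.1 → x p * x q = 0}

theorem isClosed_EE : IsClosed EE := by
  have h1 : IsClosed {x : VV × ZMod 2 → ℝ | ∀ p, 0 ≤ x p} := by
    simp only [Set.ofPred_forall]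
    exact isClosed_iInter fun p => isClosed_le continuous_const (continuous_apply p)
  have h2 : IsClosed {x : VV × ZMod 2 → ℝ | ∑ p, x p = 1} :=
    isClosed_eq (continuous_finsetSum _ fun p _ => continuous_apply p) continuous_const
  have h3 : IsClosed {x : VV × ZMod 2 → ℝ |
      ∃ y : VV, ∀ p : VV × ZMod 2, ¬ Radj y p.1 → x p = 0} := by
    simp only [Set.ofPred_exists, Set.ofPred_forall]
    refine isClosed_iUnion_of_finite fun y => isClosed_iInter fun p => isClosed_iInter fun _ => ?_
    exact isClosed_eq (continuous_apply p) continuous_const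
  have h4 : IsClosed {x : VV × ZMod 2 → ℝ |
      ∀ p q : VV × ZMod 2, q.2 ≠ p.2 + kap p.1.1 q.1.1 → x p * x q = 0} := by
    simp only [Set.ofPred_forall]
    refine isClosed_iInter fun p => isClosed_iInter fun q => isClosed_iInter fun _ => ?_
    exact isClosed_eq ((continuous_apply p).mul (continuous_apply q)) continuous_const
  exact h1.inter (h2.inter (h3.inter h4))

theorem isCompact_EE : IsCompact EE := by
  refine (isCompact_stdSimplex ℝ (VV × ZMod 2)).of_isClosed_subset isClosed_EE ?_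
  intro x hx
  exact ⟨hx.1, hx.2.1⟩

instance : CompactSpace EE := isCompact_iff_compactSpace.1 isCompact_EE

/-- The projection of the double cover. -/
noncomputable def proj (x : EE) : XX :=
  ⟨fun v => ∑ i, x.1 (v, i), by
    rw [mem_XX]
    refine ⟨fun v => Finset.sum_nonneg fun i _ => x.2.1 _, ?_, ?_⟩
    · rw [← x.2.2.1]
      exact (Fintype.sum_prod_type (fun p : VV × ZMod 2 => x.1 p)).symm
    · obtain ⟨y, hy⟩ := x.2.2.2.1
      refine ⟨y, fun v hv => ?_⟩
      by_contra hc
      exact hv (Finset.sum_eq_zero fun i _ => hy (v, i) hc)⟩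

theorem proj_apply (x : EE) (v : VV) : (proj x).1 v = ∑ i, x.1 (v, i) := rfl

theorem continuous_proj : Continuous proj := by
  refine Continuous.subtype_mk ?_ _
  refine continuous_pi fun v => continuous_finsetSum _ fun i _ => ?_
  exact (continuous_apply (v, i)).comp continuous_subtype_val

theorem eq_zero_of (x : EE) {v₀ : VV} {i₀ : ZMod 2} (h : x.1 (v₀, i₀) ≠ 0) (v : VV) (j : ZMod 2)
    (hj : j ≠ i₀ + kap v₀.1 v.1) : x.1 (v, j) = 0 := by
  have := x.2.2.2.2 (v₀, i₀) (v, j) hj
  rcases mul_eq_zero.1 this with h1 | h1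
  · exact absurd h1 h
  · exact h1

theorem eq_proj_of (x : EE) {v₀ : VV} {i₀ : ZMod 2} (h : x.1 (v₀, i₀) ≠ 0) (v : VV) :
    x.1 (v, i₀ + kap v₀.1 v.1) = (proj x).1 v := by
  rw [proj_apply]
  symm
  refine Finset.sum_eq_single _ ?_ ?_
  · intro j _ hj
    exact eq_zero_of x h v j hj
  · intro hc
    exact absurd (Finset.mem_univ _) hc

theorem exists_ne_zero (x : EE) : ∃ v i, x.1 (v, i) ≠ 0 := by
  by_contra hc
  push Not at hc
  have h := x.2.2.1
  rw [Finset.sum_eq_zero fun p _ => hc p.1 p.2] at h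
  norm_num at h

/-- Translation on the cover. -/
noncomputable def tr (g : ZMod 2) (x : EE) : EE :=
  ⟨fun p => x.1 (p.1, p.2 + g), by
    refine ⟨fun p => x.2.1 _, ?_, ?_, ?_⟩
    · rw [← x.2.2.1]
      refine (Fintype.sum_prod_type (fun p : VV × ZMod 2 => x.1 (p.1, p.2 + g))).trans ?_
      refine Eq.trans ?_ (Fintype.sum_prod_type (fun p : VV × ZMod 2 => x.1 p)).symm
      refine Finset.sum_congr rfl fun v _ => ?_
      exact Fintype.sum_equiv (Equiv.addRight g) _ _ fun i => rfl
    · obtain ⟨y, hy⟩ := x.2.2.2.1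
      exact ⟨y, fun p hp => hy _ hp⟩
    · intro p q hpq
      refine x.2.2.2.2 (p.1, p.2 + g) (q.1, q.2 + g) ?_
      intro h
      apply hpq
      have h' : q.2 + g = p.2 + kap p.1.1 q.1.1 + g := by
        rw [show p.2 + kap p.1.1 q.1.1 + g = p.2 + g + kap p.1.1 q.1.1 by ring]
        exact h
      exact add_right_cancel h'⟩

noncomputable instance : AddAction (ZMod 2) EE where
  vadd g x := tr g x
  zero_vadd x := by
    apply Subtype.ext
    funext p
    show x.1 (p.1, p.2 + 0) = x.1 p
    rw [add_zero]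
  add_vadd g h x := by
    apply Subtype.ext
    funext p
    show x.1 (p.1, p.2 + (g + h)) = x.1 (p.1, p.2 + g + h)
    rw [add_assoc]

theorem vadd_apply (g : ZMod 2) (x : EE) (p : VV × ZMod 2) :
    (g +ᵥ x).1 p = x.1 (p.1, p.2 + g) := rfl

theorem continuous_tr (g : ZMod 2) : Continuous (tr g) := by
  refine Continuous.subtype_mk ?_ _
  refine continuous_pi fun p => ?_
  exact (continuous_apply (p.1, p.2 + g)).comp continuous_subtype_val

theorem proj_tr (g : ZMod 2) (x : EE) : proj (g +ᵥ x) = proj x := by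
  apply Subtype.ext
  funext v
  rw [proj_apply, proj_apply]
  exact Fintype.sum_equiv (Equiv.addRight g) _ _ fun i => rfl

theorem proj_surjective : Function.Surjective proj := by
  rintro ⟨z, hz⟩
  obtain ⟨h1, h2, y, hy⟩ := (mem_XX z).1 hz
  have hmem : (fun p : VV × ZMod 2 => if p.2 = kap y.1 p.1.1 then z p.1 else 0) ∈ EE := by
    refine ⟨?_, ?_, ⟨y, ?_⟩, ?_⟩
    · intro p
      dsimp only
      split_ifs
      · exact h1 _
      · exact le_rfl
    · rw [← h2]
      refine (Fintype.sum_prod_type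
        (fun p : VV × ZMod 2 => if p.2 = kap y.1 p.1.1 then z p.1 else 0)).trans ?_
      refine Finset.sum_congr rfl fun v _ => ?_
      simp
    · intro p hp
      dsimp only
      split_ifs
      · by_contra hc
        exact hp (hy _ hc)
      · rfl
    · intro p q hpq
      dsimp only
      split_ifs with hp hq hq
      · by_contra hc
        have hc1 : z p.1 ≠ 0 := fun e => hc (by rw [e, zero_mul])
        have hc2 : z q.1 ≠ 0 := fun e => hc (by rw [e, mul_zero])
        have := kap_cocycle y.1 y.1 (R_refl _) p.1.1 (hy _ hc1).1 q.1.1 (hy _ hc2).1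
        exact hpq (by rw [hp, hq, this])
      all_goals simp
  refine ⟨⟨_, hmem⟩, ?_⟩
  apply Subtype.ext
  funext v
  rw [proj_apply]
  simp

theorem mem_orbit_of (x x' : EE) (h : proj x = proj x') : x ∈ AddAction.orbit (ZMod 2) x' := by
  obtain ⟨v₀, i₀, h0⟩ := exists_ne_zero x
  have h1 : (proj x).1 v₀ ≠ 0 := by
    rw [← eq_proj_of x h0 v₀, kap_self, add_zero]
    exact h0
  rw [h] at h1
  obtain ⟨i₁, h2⟩ : ∃ i₁, x'.1 (v₀, i₁) ≠ 0 := by
    by_contra hc
    push Not at hc
    exact h1 (by rw [proj_apply]; exact Finset.sum_eq_zero fun i _ => hc i)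
  refine ⟨i₁ - i₀, ?_⟩
  apply Subtype.ext
  funext ⟨v, j⟩
  show x'.1 (v, j + (i₁ - i₀)) = x.1 (v, j)
  by_cases hj : j = i₀ + kap v₀.1 v.1
  · rw [hj, eq_proj_of x h0 v, h, ← eq_proj_of x' h2 v]
    rw [show i₀ + kap v₀.1 v.1 + (i₁ - i₀) = i₁ + kap v₀.1 v.1 by ring]
  · rw [eq_zero_of x h0 v j hj, eq_zero_of x' h2]
    intro hc
    apply hj
    have : j = j + (i₁ - i₀) - (i₁ - i₀) := by ring
    rw [this, hc]
    ring

theorem isCoveringMap_proj : IsCoveringMap proj := by
  have hq : IsQuotientMap proj :=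
    IsQuotientMap.of_surjective_continuous proj_surjective continuous_proj
  have : IsAddQuotientCoveringMap proj (ZMod 2) :=
    { toIsQuotientMap := hq
      continuous_const_vadd := fun g => continuous_tr g
      apply_eq_iff_mem_orbit := by
        intro x x'
        refine ⟨mem_orbit_of x x', ?_⟩
        rintro ⟨g, rfl⟩
        exact proj_tr g x'
      disjoint := by
        intro e
        obtain ⟨v₀, i₀, h0⟩ := exists_ne_zero e
        refine ⟨{x | x.1 (v₀, i₀) ≠ 0}, ?_, ?_⟩
        · refine IsOpen.mem_nhds ?_ h0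
          exact isOpen_ne_fun ((continuous_apply (v₀, i₀)).comp continuous_subtype_val)
            continuous_const
        · rintro g ⟨_, ⟨x, hx, rfl⟩, hgx⟩
          have h1 : x.1 (v₀, i₀ + g) ≠ 0 := hgx
          by_contra hg
          apply h1
          refine eq_zero_of x hx v₀ _ ?_
          rw [kap_self, add_zero]
          intro hc
          exact hg (by simpa using hc) }
  exact this.isCoveringMap

/-! ### A path in the cover joining the two preimages of a vertex -/

theorem eq_of_path {E X : Type*} [TopologicalSpace E] [TopologicalSpace X] {p : E → X}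
    (cov : IsCoveringMap p) {x y : E} (h : p y = p x) (Γ : Path x y)
    (hs : Subsingleton (FundamentalGroup X (p x))) : x = y := by
  have hs' : ∀ a : X, p x = a → Subsingleton (Path.Homotopic.Quotient (p x) a) := by
    rintro a rfl
    exact hs
  have := cov.monodromy_eq_of_map_eq (x := p x) (y := p x)
    (γ := Path.Homotopic.Quotient.refl (p x)) (ex := ⟨x, rfl⟩) (ey := ⟨y, h⟩)
    (Path.Homotopic.Quotient.mk Γ) (by
      have := hs' (p y) h.symm
      exact Subsingleton.elim _ _)
  rw [cov.monodromy_refl] at this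
  exact congrArg Subtype.val this

/-- The vertices of the cover, as vectors. -/
noncomputable def dl (p : VV × ZMod 2) : VV × ZMod 2 → ℝ := Pi.single p 1

theorem dl_self (p : VV × ZMod 2) : dl p p = 1 := by simp [dl]

theorem dl_ne {p r : VV × ZMod 2} (h : r ≠ p) : dl p r = 0 := by simp [dl, h]

theorem sum_dl (p : VV × ZMod 2) : ∑ r, dl p r = 1 := by simp [dl]

/-- Segments in the cover. -/
theorem segment_subset (p q : VV × ZMod 2) (y : VV) (hp : Radj y p.1) (hq : Radj y q.1)
    (h1 : q.2 = p.2 + kap p.1.1 q.1.1) (h2 : p.2 = q.2 + kap q.1.1 p.1.1) :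
    segment ℝ (dl p) (dl q) ⊆ EE := by
  rintro z ⟨a, b, ha, hb, hab, rfl⟩
  have hz : ∀ r, (a • dl p + b • dl q) r = a * dl p r + b * dl q r := fun r => rfl
  have hnn : ∀ p r, 0 ≤ dl p r := by
    intro p r
    by_cases h : r = p
    · rw [h, dl_self]; norm_num
    · rw [dl_ne h]
  have hsupp : ∀ r, (a • dl p + b • dl q) r ≠ 0 → r = p ∨ r = q := by
    intro r hr
    by_contra hc
    push Not at hc
    apply hr
    rw [hz, dl_ne hc.1, dl_ne hc.2]
    ring
  refine ⟨?_, ?_, ⟨y, ?_⟩, ?_⟩
  · intro r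
    rw [hz]
    exact add_nonneg (mul_nonneg ha (hnn _ _)) (mul_nonneg hb (hnn _ _))
  · rw [Finset.sum_congr rfl fun r _ => hz r, Finset.sum_add_distrib, ← Finset.mul_sum,
      ← Finset.mul_sum, sum_dl, sum_dl, mul_one, mul_one]
    exact hab
  · intro r hr
    by_contra hc
    rcases hsupp r hc with rfl | rfl
    · exact hr hp
    · exact hr hq
  · intro r s hrs
    by_contra hc
    have hc1 : (a • dl p + b • dl q) r ≠ 0 := fun e => hc (by rw [e, zero_mul])
    have hc2 : (a • dl p + b • dl q) s ≠ 0 := fun e => hc (by rw [e, mul_zero])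
    apply hrs
    rcases hsupp r hc1 with rfl | rfl <;> rcases hsupp s hc2 with rfl | rfl
    · rw [kap_self, add_zero]
    · exact h1
    · exact h2
    · rw [kap_self, add_zero]

/-- The three vertices of the loop. -/
def va : VV := (0, 0)
/-- second vertex -/
def vb : VV := (3, 0)
/-- third vertex -/
def vd : VV := (12, 0)

theorem seg1 : segment ℝ (dl (va, 0)) (dl (vb, 0)) ⊆ EE :=
  segment_subset _ _ (1, 1) ⟨by decide, by decide⟩ ⟨by decide, by decide⟩ (by decide) (by decide)

theorem seg2 : segment ℝ (dl (vb, 0)) (dl (vd, 1)) ⊆ EE :=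
  segment_subset _ _ (3, 1) ⟨by decide, by decide⟩ ⟨by decide, by decide⟩ (by decide) (by decide)

theorem seg3 : segment ℝ (dl (vd, 1)) (dl (va, 1)) ⊆ EE :=
  segment_subset _ _ (4, 1) ⟨by decide, by decide⟩ ⟨by decide, by decide⟩ (by decide) (by decide)

theorem joined : JoinedIn EE (dl (va, 0)) (dl (va, 1)) :=
  ((JoinedIn.of_segment_subset seg1).trans (JoinedIn.of_segment_subset seg2)).trans
    (JoinedIn.of_segment_subset seg3)

theorem e0_mem : dl (va, 0) ∈ EE := seg1 (left_mem_segment ℝ _ _)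

theorem e1_mem : dl (va, 1) ∈ EE := seg3 (right_mem_segment ℝ _ _)

theorem proj_eq : proj ⟨dl (va, 1), e1_mem⟩ = proj ⟨dl (va, 0), e0_mem⟩ := by
  have h : (⟨dl (va, 0), e0_mem⟩ : EE) = (1 : ZMod 2) +ᵥ (⟨dl (va, 1), e1_mem⟩ : EE) := by
    apply Subtype.ext
    funext p
    show dl (va, 0) p = dl (va, 1) (p.1, p.2 + 1)
    by_cases hp : p = (va, 0)
    · rw [hp, dl_self]
      show 1 = dl (va, 1) (va, 0 + 1)
      rw [zero_add, dl_self]
    · rw [dl_ne hp, dl_ne]
      intro hc
      apply hp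
      have h1 := congrArg Prod.fst hc
      have h2 := congrArg Prod.snd hc
      refine Prod.ext h1 ?_
      have h3 : p.2 + 1 = 0 + 1 := by rw [zero_add]; exact h2
      exact add_right_cancel h3
  rw [h, proj_tr]

theorem e_ne : (⟨dl (va, 0), e0_mem⟩ : EE) ≠ ⟨dl (va, 1), e1_mem⟩ := by
  intro h
  have h1 := congrArg Subtype.val h
  have h2 : dl (va, 0) (va, 0) = dl (va, 1) (va, 0) := congrFun h1 (va, 0)
  rw [dl_self, dl_ne] at h2
  · norm_num at h2
  · intro hc
    exact absurd (congrArg Prod.snd hc) (by decide)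

theorem not_subsingleton_pi_one :
    ¬ Subsingleton (π_ 1 XX (proj ⟨dl (va, 0), e0_mem⟩)) := by
  intro hs
  have hs' : Subsingleton (FundamentalGroup XX (proj ⟨dl (va, 0), e0_mem⟩)) :=
    (HomotopyGroup.pi1EquivFundamentalGroup (X := XX)
      (x := proj ⟨dl (va, 0), e0_mem⟩)).symm.subsingleton
  obtain ⟨Γ⟩ := (joinedIn_iff_joined e0_mem e1_mem).1 joined
  exact e_ne (eq_of_path isCoveringMap_proj proj_eq Γ hs')

/-! ### The theorem -/

theorem conn_le : conn XX ≤ 0 := by
  refine sSup_le ?_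
  rintro c ⟨k, -, hk, rfl⟩
  have hk0 : k ≤ 0 := by
    by_contra hc
    exact not_subsingleton_pi_one (hk.2 1 (by push_cast; omega) _)
  have : ((k : ℝ) : EReal) ≤ ((0 : ℝ) : EReal) := by
    rw [EReal.coe_le_coe_iff]
    exact_mod_cast hk0
  simpa using this

theorem le_conn : -1 ≤ conn XX := by
  refine le_sSup ⟨-1, le_rfl, ⟨⟨proj ⟨dl (va, 0), e0_mem⟩⟩, ?_⟩, ?_⟩
  · intro i hi
    omega
  · simp

theorem four_le : 4 ≤ warmth H :=
  le_sSup ⟨4, four_warm, by simp⟩

/-- There is a finite simple graph `H` with an edge such that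
`w(H) ≥ conn[N(H)] + 4`; the conjectured inequality `w(H) ≤ conn[N(H)] + 3` fails. -/
theorem result :
    (∃ (V : Type) (_ : Fintype V) (H : SimpleGraph V), (∃ u v, H.Adj u v) ∧
      4 ≤ warmth H ∧ -1 ≤ conn (realization (nbhdFaces H)) ∧
      conn (realization (nbhdFaces H)) ≤ 0 ∧
      conn (realization (nbhdFaces H)) + 4 ≤ warmth H) ∧
    ¬ ∀ (V : Type) (_ : Fintype V) (H : SimpleGraph V), (∃ u v, H.Adj u v) →
      warmth H ≤ conn (realization (nbhdFaces H)) + 3 := by
  have hedge : ∃ u v, H.Adj u v := ⟨(0, 0), (0, 1), by decide, by decide⟩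
  have h4 : conn XX + 4 ≤ warmth H :=
    (add_le_add conn_le (le_refl (4 : EReal))).trans (by rw [zero_add]; exact four_le)
  refine ⟨⟨VV, inferInstance, H, hedge, four_le, le_conn, conn_le, h4⟩, ?_⟩
  intro hall
  have h := hall VV inferInstance H hedge
  have h1 : (4 : EReal) ≤ 3 :=
    (four_le.trans h).trans ((add_le_add conn_le (le_refl (3 : EReal))).trans (by rw [zero_add]))
  have h2 : ((4 : ℝ) : EReal) ≤ ((3 : ℝ) : EReal) := h1
  rw [EReal.coe_le_coe_iff] at h2
  norm_num at h2

end Pool.Agent.Results.MP_64e474_co.FoldedCubeTimesK4
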